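import Pool.Agent.W203.WS.Stm

/-!
# WS-AV: average over all shifts for one frequency
-/

set_option autoImplicit false

open MeasureTheory Finset

namespace Pool.Agent.W363.WS

open Pool.Agent.W203.WS

theorem e_cont : Continuous e := by
  unfold e
  fun_prop

theorem S_cont (k P : ℕ) (t : ℝ) : Continuous (fun θ => S k P t θ) := by
  unfold S
  refine continuous_finsetSum _ fun x _ => ?_
  exact e_cont.comp (by fun_prop)

theorem J1_eq (k P : ℕ) (t : ℝ) : J1 k P t = ∫ θ in (0 : ℝ)..1, S k P t θ := by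
  unfold J1 S
  have hf : Continuous (fun u : ℝ => e (t * u ^ k)) := e_cont.comp (by fun_prop)
  rw [intervalIntegral.integral_finsetSum]
  · have h1 := intervalIntegral.sum_integral_adjacent_intervals_Ico (μ := volume)
      (f := fun u : ℝ => e (t * u ^ k)) (a := fun n : ℕ => (n : ℝ)) (m := P) (n := 4 * P)
      (by omega) (fun n _ => hf.intervalIntegrable _ _)
    push_cast at h1
    rw [← h1]
    refine Finset.sum_congr rfl fun n _ => ?_
    have h2 := intervalIntegral.integral_comp_add_left (a := 0) (b := 1)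
      (fun u : ℝ => e (t * u ^ k)) (n : ℝ)
    simp only [add_zero] at h2
    rw [← h2]
  · intro n _
    exact (e_cont.comp (by fun_prop)).intervalIntegrable _ _

theorem cs (F : ℝ → ℝ) (hF : Continuous F) :
    (∫ θ in (0 : ℝ)..1, F θ) ^ 2 ≤ ∫ θ in (0 : ℝ)..1, F θ ^ 2 := by
  set I : ℝ := ∫ θ in (0 : ℝ)..1, F θ with hI
  have h0 : 0 ≤ ∫ θ in (0 : ℝ)..1, (F θ - I) ^ 2 :=
    intervalIntegral.integral_nonneg (by norm_num) fun x _ => sq_nonneg _
  have h1 : ∫ θ in (0 : ℝ)..1, (F θ - I) ^ 2 =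
      (∫ θ in (0 : ℝ)..1, F θ ^ 2) - I ^ 2 := by
    have e1 : ∀ θ, (F θ - I) ^ 2 = F θ ^ 2 - ((2 * I) * F θ - I ^ 2) := fun θ => by ring
    simp only [e1]
    have i1 : IntervalIntegrable (fun θ => F θ ^ 2) volume 0 1 :=
      Continuous.intervalIntegrable (by fun_prop) _ _
    have i2 : IntervalIntegrable (fun θ => (2 * I) * F θ - I ^ 2) volume 0 1 :=
      Continuous.intervalIntegrable (by fun_prop) _ _
    have i3 : IntervalIntegrable (fun θ => (2 * I) * F θ) volume 0 1 :=
      Continuous.intervalIntegrable (by fun_prop) _ _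
    have i4 : IntervalIntegrable (fun _ : ℝ => I ^ 2) volume 0 1 :=
      Continuous.intervalIntegrable (by fun_prop) _ _
    rw [intervalIntegral.integral_sub i1 i2, intervalIntegral.integral_sub i3 i4,
      intervalIntegral.integral_const_mul, ← hI, intervalIntegral.integral_const]
    simp
    ring
  linarith

theorem t_AV : S_AV := by
  intro k s P t hs
  set F : ℝ → ℂ := fun θ => S k P t θ with hF
  have hFc : Continuous F := S_cont k P t
  have hNc : Continuous (fun θ => ‖F θ‖) := hFc.norm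
  set I1 : ℝ := ∫ θ in (0 : ℝ)..1, ‖F θ‖ with hI1
  set I2 : ℝ := ∫ θ in (0 : ℝ)..1, ‖F θ‖ ^ 2 with hI2
  have hI1n : 0 ≤ I1 := intervalIntegral.integral_nonneg (by norm_num) fun x _ => norm_nonneg _
  have hI2n : 0 ≤ I2 := intervalIntegral.integral_nonneg (by norm_num) fun x _ => by positivity
  have hcs : I1 ^ 2 ≤ I2 := cs _ hNc
  have hJ : ‖J1 k P t‖ ≤ I1 := by
    rw [J1_eq]
    exact intervalIntegral.norm_integral_le_integral_norm (by norm_num)
  have hpow : I1 ^ s ≤ I2 ^ ((s : ℝ) / 2) := by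
    have h1 : I1 ≤ Real.sqrt I2 := Real.le_sqrt_of_sq_le hcs
    calc I1 ^ s ≤ (Real.sqrt I2) ^ s := pow_le_pow_left₀ hI1n h1 s
      _ = I2 ^ ((s : ℝ) / 2) := by
        rw [Real.sqrt_eq_rpow, ← Real.rpow_natCast, ← Real.rpow_mul hI2n]
        congr 1
        ring
  have hJs : ‖J1 k P t ^ s‖ ≤ I1 ^ s := by
    rw [norm_pow]
    exact pow_le_pow_left₀ (norm_nonneg _) hJ s
  -- the cube
  have hcomp : IsCompact (cube s) := isCompact_univ_pi fun _ => isCompact_Icc
  have hvol : (volume : Measure (Fin s → ℝ)).real (cube s) = 1 := by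
    unfold cube
    rw [Measure.real, volume_pi_pi]
    simp
  have hprodc : Continuous (fun θ : Fin s → ℝ => ∏ i, ‖F (θ i)‖) :=
    continuous_finsetProd _ fun i _ => hNc.comp (continuous_apply i)
  have hprodc' : Continuous (fun θ : Fin s → ℝ => ∏ i, F (θ i)) :=
    continuous_finsetProd _ fun i _ => hFc.comp (continuous_apply i)
  have hint : ∫ θ in cube s, ∏ i, ‖F (θ i)‖ = I1 ^ s := by
    unfold cube
    have h3 := integral_fintype_prod_eq_pow (ι := Fin s) (fun x : ℝ => ‖F x‖)
      (μ := (volume : Measure ℝ).restrict (Set.Icc (0 : ℝ) 1))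
    rw [volume_pi, Measure.restrict_pi_pi, h3, Fintype.card_fin, hI1,
      intervalIntegral.integral_of_le (by norm_num), integral_Icc_eq_integral_Ioc]
  have hle : ∫ θ in cube s, ‖(∏ i, F (θ i)) - J1 k P t ^ s‖ ≤
      ∫ θ in cube s, ((∏ i, ‖F (θ i)‖) + I1 ^ s) := by
    refine setIntegral_mono_on ?_ ?_ hcomp.measurableSet ?_
    · exact ((hprodc'.sub continuous_const).norm).continuousOn.integrableOn_compact hcomp
    · exact (hprodc.add continuous_const).continuousOn.integrableOn_compact hcomp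
    · intro θ _
      calc ‖(∏ i, F (θ i)) - J1 k P t ^ s‖ ≤ ‖∏ i, F (θ i)‖ + ‖J1 k P t ^ s‖ := norm_sub_le _ _
        _ ≤ (∏ i, ‖F (θ i)‖) + I1 ^ s := by
          rw [norm_prod]
          linarith
  have hsum : ∫ θ in cube s, ((∏ i, ‖F (θ i)‖) + I1 ^ s) = 2 * I1 ^ s := by
    rw [integral_add (hprodc.continuousOn.integrableOn_compact hcomp)
      (continuous_const.continuousOn.integrableOn_compact hcomp), hint, setIntegral_const, hvol]
    simp
    ring
  calc ∫ θ in cube s, ‖(∏ i, F (θ i)) - J1 k P t ^ s‖ ≤ 2 * I1 ^ s := by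
        rw [← hsum]; exact hle
    _ ≤ 2 * I2 ^ ((s : ℝ) / 2) := by linarith

end Pool.Agent.W363.WS
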